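import Pool.Agent.H567.PP.Stm

/-!
# PP-3: Postnikov's formula
-/

set_option autoImplicit false

namespace Pool.Agent.H190.PP

open Finset
open Pool.Agent.H567.PP (Lam S_LOGADD S_LAMVAL S_POST)

/-! ### Characters on the image of a logarithm -/

section

variable (D : ℤ) (L : ℤ → ℤ) (g : ℤ → ℂ) (NN : ℕ)

/-- the composition -/
def cmp (w w' : ℤ) : ℤ := w + w' + D * w * w'

/-- iterates of the composition -/
def pw (w : ℤ) : ℕ → ℤ
  | 0 => 0
  | n + 1 => cmp D (pw w n) w

variable {D L g NN}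

theorem g_pw (hg0 : g 0 = 1) (hg : ∀ w w', g (cmp D w w') = g w * g w') (w : ℤ) (n : ℕ) :
    g (pw D w n) = g w ^ n := by
  induction n with
  | zero => rw [pw, hg0, pow_zero]
  | succ n ih => rw [pw, hg, ih, pow_succ]

theorem L_pw (hL0 : L 0 = 0) (hL : ∀ w w', (NN : ℤ) ∣ L (cmp D w w') - L w - L w') (w : ℤ)
    (n : ℕ) : (NN : ℤ) ∣ L (pw D w n) - n * L w := by
  induction n with
  | zero => rw [pw, hL0]; simp
  | succ n ih =>
    have h1 := hL (pw D w n) w
    rw [pw]
    have h2 : L (cmp D (pw D w n) w) - ((n + 1 : ℕ) : ℤ) * L w =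
        (L (cmp D (pw D w n) w) - L (pw D w n) - L w) + (L (pw D w n) - n * L w) := by
      push_cast
      ring
    rw [h2]
    exact dvd_add h1 ih

/-- equal logarithms give equal values -/
theorem g_eq (hNN : 0 < NN) (hL0 : L 0 = 0) (hg0 : g 0 = 1)
    (hg : ∀ w w', g (cmp D w w') = g w * g w')
    (hL : ∀ w w', (NN : ℤ) ∣ L (cmp D w w') - L w - L w')
    (h1 : ∀ w, (NN : ℤ) ∣ L w → g w = 1) {w w' : ℤ} (h : (NN : ℤ) ∣ L w - L w') :
    g w = g w' := by
  have hNNc : ((NN - 1 : ℕ) : ℤ) = (NN : ℤ) - 1 := by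
    rw [Nat.cast_sub hNN]
    simp
  have key : ∀ v : ℤ, (NN : ℤ) ∣ L v - L w' → g v * g w' ^ (NN - 1) = 1 := by
    intro v hv
    rw [← g_pw hg0 hg, ← hg]
    apply h1
    have h2 := hL v (pw D w' (NN - 1))
    have h3 := L_pw hL0 hL w' (NN - 1)
    rw [hNNc] at h3
    have h4 : L (cmp D v (pw D w' (NN - 1))) =
        (L (cmp D v (pw D w' (NN - 1))) - L v - L (pw D w' (NN - 1))) +
        (L (pw D w' (NN - 1)) - ((NN : ℤ) - 1) * L w') + (L v - L w') + NN * L w' := by
      ring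
    rw [h4]
    exact dvd_add (dvd_add (dvd_add h2 h3) hv) (dvd_mul_right _ _)
  have e1 := key w h
  have e2 := key w' (by simp)
  calc g w = g w * (g w' * g w' ^ (NN - 1)) := by rw [e2, mul_one]
    _ = (g w * g w' ^ (NN - 1)) * g w' := by ring
    _ = g w' := by rw [e1, one_mul]

theorem exists_c (hNN : 0 < NN) (hL0 : L 0 = 0) (hg0 : g 0 = 1)
    (hg : ∀ w w', g (cmp D w w') = g w * g w')
    (hL : ∀ w w', (NN : ℤ) ∣ L (cmp D w w') - L w - L w')
    (h1 : ∀ w, (NN : ℤ) ∣ L w → g w = 1) :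
    ∃ c : ℕ, 1 ≤ c ∧ ∀ w, g w =
      Complex.exp (2 * Real.pi * Complex.I * (((c : ℝ) * (L w : ℝ) / (NN : ℝ) : ℝ) : ℂ)) := by
  have hNN' : (NN : ℤ) ≠ 0 := by exact_mod_cast hNN.ne'
  let S : AddSubgroup ℤ :=
    { carrier := {a | ∃ w, (NN : ℤ) ∣ a - L w}
      zero_mem' := ⟨0, by rw [hL0]; simp⟩
      add_mem' := by
        rintro a b ⟨w, hw⟩ ⟨w', hw'⟩
        refine ⟨cmp D w w', ?_⟩
        have h2 := hL w w'
        have h3 : a + b - L (cmp D w w') = (a - L w) + (b - L w') -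
            (L (cmp D w w') - L w - L w') := by ring
        rw [h3]
        exact dvd_sub (dvd_add hw hw') h2
      neg_mem' := by
        rintro a ⟨w, hw⟩
        refine ⟨pw D w (NN - 1), ?_⟩
        have h3 := L_pw hL0 hL w (NN - 1)
        have hNNc : ((NN - 1 : ℕ) : ℤ) = (NN : ℤ) - 1 := by
          rw [Nat.cast_sub hNN]
          simp
        rw [hNNc] at h3
        have h4 : -a - L (pw D w (NN - 1)) = -(a - L w) -
            (L (pw D w (NN - 1)) - ((NN : ℤ) - 1) * L w) - NN * L w := by ring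
        rw [h4]
        exact dvd_sub (dvd_sub (by rwa [dvd_neg]) h3) (dvd_mul_right _ _) }
  obtain ⟨h₀, hh₀⟩ := Int.subgroup_cyclic S
  set h : ℕ := h₀.natAbs with hh
  have hSmem : ∀ a : ℤ, a ∈ S ↔ (h : ℤ) ∣ a := by
    intro a
    rw [hh₀, AddSubgroup.mem_closure_singleton, hh, Int.natAbs_dvd]
    constructor
    · rintro ⟨n, hn⟩
      exact ⟨n, by rw [← hn, smul_eq_mul, mul_comm]⟩
    · rintro ⟨n, hn⟩
      exact ⟨n, by rw [hn, smul_eq_mul, mul_comm]⟩
  have hNNS : (NN : ℤ) ∈ S := ⟨0, by rw [hL0]; simp⟩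
  have hdvd : h ∣ NN := by
    rw [hSmem] at hNNS
    exact_mod_cast hNNS
  obtain ⟨n, hn⟩ := hdvd
  have hh0 : 0 < h := Nat.pos_of_ne_zero fun h2 => by rw [h2, zero_mul] at hn; omega
  have hn0 : 0 < n := Nat.pos_of_ne_zero fun h2 => by rw [h2, mul_zero] at hn; omega
  obtain ⟨w₀, hw₀⟩ : (h : ℤ) ∈ S := (hSmem _).2 dvd_rfl
  -- the value at `w₀` is a root of unity
  have hLn : ∀ m : ℕ, (NN : ℤ) ∣ L (pw D w₀ m) - m * h := by
    intro m
    have h2 := L_pw hL0 hL w₀ m
    have h3 : L (pw D w₀ m) - (m : ℤ) * h = (L (pw D w₀ m) - m * L w₀) - m * (h - L w₀) := by ring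
    rw [h3]
    exact dvd_sub h2 (hw₀.mul_left _)
  have hroot : g w₀ ^ n = 1 := by
    rw [← g_pw hg0 hg]
    apply h1
    have h2 := hLn n
    have h3 : L (pw D w₀ n) = (L (pw D w₀ n) - n * h) + NN := by
      rw [hn]
      push_cast
      ring
    rw [h3]
    exact dvd_add h2 dvd_rfl
  have hne : NeZero n := ⟨hn0.ne'⟩
  obtain ⟨i, -, hi⟩ := (Complex.isPrimitiveRoot_exp n hn0.ne').eq_pow_of_pow_eq_one hroot
  refine ⟨i + n, by omega, fun w => ?_⟩
  -- the value at `w`
  obtain ⟨m, hm⟩ : (h : ℤ) ∣ L w := (hSmem _).1 ⟨w, by simp⟩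
  have hnz : (n : ℤ) ≠ 0 := by exact_mod_cast hn0.ne'
  obtain ⟨m', hm'⟩ : ∃ m' : ℕ, (m' : ℤ) = m % n :=
    ⟨(m % n).toNat, Int.toNat_of_nonneg (Int.emod_nonneg _ hnz)⟩
  have hmq : m = n * (m / n) + m' := by
    rw [hm']
    exact (Int.mul_ediv_add_emod m n).symm
  have hgw : g w = g w₀ ^ m' := by
    rw [← g_pw hg0 hg]
    apply g_eq hNN hL0 hg0 hg hL h1
    have h2 := hLn m'
    have h3 : L w - L (pw D w₀ m') = NN * (m / n) - (L (pw D w₀ m') - m' * h) := by
      rw [hm, hn]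
      conv_lhs => rw [hmq]
      push_cast
      ring
    rw [h3]
    exact dvd_sub (dvd_mul_right _ _) h2
  rw [hgw, ← hi, ← Complex.exp_nat_mul, ← Complex.exp_nat_mul, hm]
  rw [Complex.exp_eq_exp_iff_exists_int]
  refine ⟨-(i * (m / n) + m), ?_⟩
  have hnC : (n : ℂ) ≠ 0 := by exact_mod_cast hn0.ne'
  have hhC : (h : ℂ) ≠ 0 := by exact_mod_cast hh0.ne'
  have hNC : (NN : ℂ) = h * n := by rw [hn]; push_cast; ring
  have hmC : ((m : ℤ) : ℂ) = n * ((m / n : ℤ) : ℂ) + m' := by
    exact_mod_cast congrArg (fun z : ℤ => (z : ℂ)) hmq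
  push_cast
  rw [hNC]
  field_simp
  rw [hmC]
  ring

end

/-! ### The `q`-part of a number -/

/-- the `q`-part of `a` -/
noncomputable def part (q a : ℕ) : ℕ := (a.factorization.filter (· ∣ q)).prod (· ^ ·)

theorem fac_part (q a : ℕ) : (part q a).factorization = a.factorization.filter (· ∣ q) := by
  unfold part
  apply Nat.prod_pow_factorization_eq_self
  intro p hp
  rw [Finsupp.support_filter, Finset.mem_filter] at hp
  exact Nat.prime_of_mem_primeFactors (by simpa using hp.1)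

theorem fac_part_pos {q a p : ℕ} (hp : p ∣ q) :
    (part q a).factorization p = a.factorization p := by
  rw [fac_part]
  exact Finsupp.filter_apply_pos (· ∣ q) _ hp

theorem fac_part_neg {q a p : ℕ} (hp : ¬ p ∣ q) : (part q a).factorization p = 0 := by
  rw [fac_part]
  exact Finsupp.filter_apply_neg (· ∣ q) _ hp

theorem part_ne_zero (q a : ℕ) : part q a ≠ 0 := by
  unfold part
  rw [Finsupp.prod, Finset.prod_ne_zero_iff]
  intro p hp
  rw [Finsupp.support_filter, Finset.mem_filter] at hp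
  exact pow_ne_zero _ (Nat.prime_of_mem_primeFactors (by simpa using hp.1)).ne_zero

theorem dvd_of_dvd_part {q a p : ℕ} (hp : p.Prime) (h : p ∣ part q a) : p ∣ q := by
  by_contra hcon
  have h1 := fac_part_neg (a := a) hcon
  have h2 := (hp.dvd_iff_one_le_factorization (part_ne_zero q a)).1 h
  omega

theorem Lam_zero (r : ℕ) : Lam r 0 = 0 := by
  unfold Lam
  apply Finset.sum_eq_zero
  intro i hi
  have := (mem_Icc.1 hi).1
  rw [zero_pow (by omega), mul_zero]

section

variable {q D r : ℕ}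

/-- the valuation of the logarithm -/
theorem fac_Lam (hval : S_LAMVAL) (hr : 1 ≤ r) (hrad : ∀ p : ℕ, p.Prime → p ∣ q → p ∣ D)
    (h2 : 2 ∣ q → 4 ∣ D) {x : ℤ} (hx : x ≠ 0) (hDx : (D : ℤ) ∣ x) {p : ℕ} (hp : p.Prime)
    (hpq : p ∣ q) : Lam r x ≠ 0 ∧ (Lam r x).natAbs.factorization p =
      r.factorial.factorization p + x.natAbs.factorization p := by
  have hpx : (p : ℤ) ∣ x := (Int.natCast_dvd_natCast.2 (hrad p hp hpq)).trans hDx
  obtain ⟨h3, h4⟩ := hval r p x hr hp hx hpx (by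
    intro hp2
    subst hp2
    have h5 : ((4 : ℕ) : ℤ) ∣ x := (Int.natCast_dvd_natCast.2 (h2 hpq)).trans hDx
    exact_mod_cast h5)
  refine ⟨h3, ?_⟩
  rw [Nat.factorization_def _ hp, Nat.factorization_def _ hp, Nat.factorization_def _ hp]
  exact h4

theorem dvd_of_dvd_Lam (hval : S_LAMVAL) (hq : q ≠ 0) (hr : 1 ≤ r)
    (hrad : ∀ p : ℕ, p.Prime → p ∣ q → p ∣ D) (h2 : 2 ∣ q → 4 ∣ D) {x : ℤ}
    (hDx : (D : ℤ) ∣ x) (h : ((q * part q r.factorial : ℕ) : ℤ) ∣ Lam r x) : (q : ℤ) ∣ x := by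
  by_cases hx : x = 0
  · rw [hx]; exact dvd_zero _
  rw [Int.natCast_dvd, ← Nat.factorization_prime_le_iff_dvd hq (Int.natAbs_ne_zero.2 hx)]
  intro p hp
  by_cases hpq : p ∣ q
  · obtain ⟨h3, h4⟩ := fac_Lam hval hr hrad h2 hx hDx hp hpq
    rw [Int.natCast_dvd, ← Nat.factorization_prime_le_iff_dvd
      (mul_ne_zero hq (part_ne_zero _ _)) (Int.natAbs_ne_zero.2 h3)] at h
    have h5 := h p hp
    rw [Nat.factorization_mul hq (part_ne_zero _ _), Finsupp.add_apply, fac_part_pos hpq, h4] at h5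
    omega
  · rw [Nat.factorization_eq_zero_of_not_dvd hpq]
    exact Nat.zero_le _

theorem dvd_Lam (hval : S_LAMVAL) (hr : 1 ≤ r)
    (hrad : ∀ p : ℕ, p.Prime → p ∣ q → p ∣ D) (h2 : 2 ∣ q → 4 ∣ D) {x : ℤ}
    (hDx : (D : ℤ) ∣ x) {m : ℕ} (hm0 : m ≠ 0) (hm : ∀ p : ℕ, p.Prime → p ∣ m → p ∣ q)
    (h : (m : ℤ) ∣ x) : ((m * part q r.factorial : ℕ) : ℤ) ∣ Lam r x := by
  by_cases hx : x = 0
  · rw [hx, Lam_zero]; exact dvd_zero _
  by_cases hL : Lam r x = 0
  · rw [hL]; exact dvd_zero _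
  rw [Int.natCast_dvd, ← Nat.factorization_prime_le_iff_dvd
      (mul_ne_zero hm0 (part_ne_zero _ _)) (Int.natAbs_ne_zero.2 hL)]
  intro p hp
  rw [Nat.factorization_mul hm0 (part_ne_zero _ _), Finsupp.add_apply]
  by_cases hpq : p ∣ q
  · obtain ⟨h3, h4⟩ := fac_Lam hval hr hrad h2 hx hDx hp hpq
    rw [h4, fac_part_pos hpq]
    rw [Int.natCast_dvd, ← Nat.factorization_prime_le_iff_dvd hm0 (Int.natAbs_ne_zero.2 hx)] at h
    have := h p hp
    omega
  · rw [fac_part_neg hpq, Nat.factorization_eq_zero_of_not_dvd fun h5 => hpq (hm p hp h5)]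
    exact Nat.zero_le _

end

theorem post (hadd : S_LOGADD) (hval : S_LAMVAL) : S_POST := by
  intro q D r χ hq hr hprim hDq hrad h2 hvalq
  have hq0 : q ≠ 0 := by omega
  have hNe : NeZero q := ⟨hq0⟩
  have hD0 : D ≠ 0 := fun h => by rw [h, zero_dvd_iff] at hDq; exact hq0 hDq
  set R : ℕ := part q r.factorial with hR
  have hR0 : R ≠ 0 := part_ne_zero _ _
  set NN : ℕ := q * R with hNN
  have hNN0 : NN ≠ 0 := mul_ne_zero hq0 hR0
  have hfac : ∀ p, p.Prime → p ∣ q → NN.factorization p =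
      q.factorization p + r.factorial.factorization p := by
    intro p _ hpq
    rw [hNN, Nat.factorization_mul hq0 hR0, Finsupp.add_apply, hR, fac_part_pos hpq]
  have hfac' : ∀ p, p.Prime → ¬ p ∣ q → NN.factorization p = 0 := by
    intro p _ hpq
    rw [hNN, Nat.factorization_mul hq0 hR0, Finsupp.add_apply, hR, fac_part_neg hpq,
      Nat.factorization_eq_zero_of_not_dvd hpq]
  -- `NN ∣ D ^ (r + 1)`
  have hNND : NN ∣ D ^ (r + 1) := by
    rw [← Nat.factorization_prime_le_iff_dvd hNN0 (pow_ne_zero _ hD0)]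
    intro p hp
    rw [Nat.factorization_pow, Finsupp.smul_apply, smul_eq_mul]
    by_cases hpq : p ∣ q
    · rw [hfac p hp hpq]
      exact hvalq p hp hpq
    · rw [hfac' p hp hpq]
      exact Nat.zero_le _
  -- the character on `1 + D ℤ`
  set L : ℤ → ℤ := fun w => Lam r (D * w) with hL
  set g : ℤ → ℂ := fun w => χ ((1 + (D : ℤ) * w : ℤ) : ZMod q) with hg
  have hL0 : L 0 = 0 := by
    rw [hL]
    simp only [mul_zero]
    exact Lam_zero r
  have hg0 : g 0 = 1 := by
    rw [hg]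
    simp
  have hgm : ∀ w w', g (cmp (D : ℤ) w w') = g w * g w' := by
    intro w w'
    rw [hg]
    simp only
    rw [← map_mul, ← Int.cast_mul]
    congr 2
    unfold cmp
    ring
  have hLm : ∀ w w', (NN : ℤ) ∣ L (cmp (D : ℤ) w w') - L w - L w' := by
    intro w w'
    have h3 := hadd r D (D * w) (D * w') hr (dvd_mul_right _ _) (dvd_mul_right _ _)
    have h4 : (NN : ℤ) ∣ (D : ℤ) ^ (r + 1) := by exact_mod_cast hNND
    have h5 : (D : ℤ) * w + D * w' + D * w * (D * w') = D * cmp (D : ℤ) w w' := by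
      unfold cmp
      ring
    rw [h5] at h3
    exact h4.trans h3
  have h1 : ∀ w, (NN : ℤ) ∣ L w → g w = 1 := by
    intro w hw
    have h3 : (q : ℤ) ∣ D * w :=
      dvd_of_dvd_Lam hval hq0 hr hrad h2 (dvd_mul_right _ _) hw
    rw [hg]
    simp only
    have h4 : ((D * w : ℤ) : ZMod q) = 0 := (ZMod.intCast_zmod_eq_zero_iff_dvd _ _).2 h3
    rw [Int.cast_add, h4]
    simp
  obtain ⟨c, hc1, hc⟩ := exists_c (Nat.pos_of_ne_zero hNN0) hL0 hg0 hgm hLm h1
  have hc0 : c ≠ 0 := by omega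
  -- primes which do not divide `c`
  have hpc : ∀ p : ℕ, p.Prime → p ∣ q → D.factorization p < q.factorization p →
      c.factorization p = 0 := by
    intro p hp hpq hlt
    apply Nat.factorization_eq_zero_of_not_dvd
    intro hpc
    obtain ⟨c₁, hc₁⟩ := hpc
    have hDp : D * p ∣ q := by
      rw [← Nat.factorization_prime_le_iff_dvd (mul_ne_zero hD0 hp.ne_zero) hq0]
      intro l hl
      rw [Nat.factorization_mul hD0 hp.ne_zero, Finsupp.add_apply, hp.factorization]
      have h3 := (Nat.factorization_prime_le_iff_dvd hD0 hq0).2 hDq l hl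
      by_cases hlp : p = l
      · subst hlp
        rw [Finsupp.single_eq_same]
        omega
      · rw [Finsupp.single_eq_of_ne (Ne.symm hlp)]
        omega
    obtain ⟨s, hs⟩ := hDp
    set q' : ℕ := D * s with hq'
    have hqq' : q = q' * p := by rw [hs, hq']; ring
    have hdvd : q' ∣ q := ⟨p, hqq'⟩
    have hq'0 : q' ≠ 0 := fun h => by rw [h, zero_mul] at hqq'; exact hq0 hqq'
    have hFT : DirichletCharacter.FactorsThrough χ q' := by
      rw [DirichletCharacter.factorsThrough_iff_ker_unitsMap hdvd]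
      intro u hu
      rw [MonoidHom.mem_ker] at hu ⊢
      rw [Units.ext_iff, MulChar.coe_toUnitHom, Units.val_one]
      have hu1 : ((u : ZMod q).cast : ZMod q') = 1 := by
        have h3 := congrArg (fun v : (ZMod q')ˣ => (v : ZMod q')) hu
        simpa [ZMod.unitsMap_def] using h3
      set a : ℕ := (u : ZMod q).val with ha
      have hau : ((a : ℕ) : ZMod q) = u := by rw [ha, ZMod.natCast_zmod_val]
      have ha1 : ((a : ℕ) : ZMod q') = 1 := by
        rw [← hu1, ← hau, ZMod.cast_natCast hdvd]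
      have ha2 : (q' : ℤ) ∣ (a : ℤ) - 1 := by
        rw [← ZMod.intCast_zmod_eq_zero_iff_dvd]
        push_cast
        rw [ha1, sub_self]
      obtain ⟨t, ht⟩ := ha2
      have hgw := hc (s * t)
      have hgu : g (s * t) = χ (u : ZMod q) := by
        rw [hg]
        simp only
        rw [← hau]
        congr 1
        have h4 : 1 + (D : ℤ) * (s * t) = a := by
          have h5 : (q' : ℤ) * t = D * (s * t) := by
            rw [hq']; push_cast; ring
          rw [← h5]
          linarith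
        rw [h4, Int.cast_natCast]
      rw [← hgu, hgw]
      have hdL : ((q' * R : ℕ) : ℤ) ∣ L (s * t) := by
        rw [hL]
        simp only
        apply dvd_Lam hval hr hrad h2 (dvd_mul_right _ _) hq'0
        · intro l hl hlq
          exact hlq.trans hdvd
        · refine ⟨t, ?_⟩
          rw [hq']; push_cast; ring
      obtain ⟨k, hk⟩ := hdL
      rw [hk]
      have hqC : (q' : ℝ) ≠ 0 := by exact_mod_cast hq'0
      have hRC : (R : ℝ) ≠ 0 := by exact_mod_cast hR0
      have hpC : (p : ℝ) ≠ 0 := by exact_mod_cast hp.ne_zero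
      have h6 : (c : ℝ) * (((q' * R : ℕ) : ℤ) * k : ℤ) / (NN : ℝ) = ((c₁ * k : ℤ) : ℝ) := by
        rw [hc₁, hNN, hqq']
        push_cast
        field_simp
      rw [h6]
      have h7 : 2 * (Real.pi : ℂ) * Complex.I * (((c₁ * k : ℤ) : ℝ) : ℂ) =
          ((c₁ * k : ℤ) : ℂ) * (2 * Real.pi * Complex.I) := by
        push_cast
        ring
      rw [h7, Complex.exp_int_mul_two_pi_mul_I]
    have hle : χ.conductor ≤ q' :=
      Nat.sInf_le ((DirichletCharacter.mem_conductorSet_iff χ).2 hFT)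
    rw [(DirichletCharacter.isPrimitive_def χ).1 hprim, hqq'] at hle
    have h8 : q' * 2 ≤ q' * p := Nat.mul_le_mul_left _ hp.two_le
    omega
  -- the fractions
  set T : ℕ → ℕ := fun i => c * (r.factorial / i) * D ^ i with hT
  have hT0 : ∀ i ∈ Icc 1 r, T i ≠ 0 := by
    intro i hi
    obtain ⟨hi1, hi2⟩ := mem_Icc.1 hi
    have h3 : i ∣ r.factorial := Nat.dvd_factorial hi1 hi2
    have h4 : r.factorial / i ≠ 0 :=
      (Nat.div_pos (Nat.le_of_dvd (Nat.factorial_pos r) h3) hi1).ne'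
    exact mul_ne_zero (mul_ne_zero hc0 h4) (pow_ne_zero _ hD0)
  refine ⟨fun i => (-1) ^ (i - 1) * ((T i / Nat.gcd NN (T i) : ℕ) : ℤ),
    fun i => NN / Nat.gcd NN (T i), ?_, ?_⟩
  · intro i hi
    obtain ⟨hi1, hi2⟩ := mem_Icc.1 hi
    have hi0 : i ≠ 0 := by omega
    have hTi := hT0 i hi
    have hgpos : 0 < Nat.gcd NN (T i) := Nat.gcd_pos_of_pos_left _ (Nat.pos_of_ne_zero hNN0)
    have hQpos : 0 < NN / Nat.gcd NN (T i) :=
      Nat.div_pos (Nat.le_of_dvd (Nat.pos_of_ne_zero hNN0) (Nat.gcd_dvd_left _ _)) hgpos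
    have hQdvd : NN / Nat.gcd NN (T i) ∣ NN := Nat.div_dvd_of_dvd (Nat.gcd_dvd_left _ _)
    have hprimes : ∀ p : ℕ, p.Prime → p ∣ NN / Nat.gcd NN (T i) → p ∣ q := by
      intro p hp hpQ
      have h3 : p ∣ q * R := hpQ.trans hQdvd
      rcases (Nat.Prime.dvd_mul hp).1 h3 with h4 | h4
      · exact h4
      · exact dvd_of_dvd_part hp h4
    have hidvd : i ∣ r.factorial := Nat.dvd_factorial hi1 hi2
    have hgD0 : Nat.gcd q (D ^ i) ≠ 0 := (Nat.gcd_pos_of_pos_left _ (by omega)).ne'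
    -- valuations
    have hv : ∀ p : ℕ, p.Prime → q.factorization p ≤
        (NN / Nat.gcd NN (T i)).factorization p + (Nat.gcd q (D ^ i)).factorization p ∧
        (NN / Nat.gcd NN (T i)).factorization p + (Nat.gcd q (D ^ i)).factorization p ≤
          i.factorization p + q.factorization p := by
      intro p hp
      have e1 : (NN / Nat.gcd NN (T i)).factorization p =
          NN.factorization p - min (NN.factorization p) ((T i).factorization p) := by
        rw [Nat.factorization_div (Nat.gcd_dvd_left _ _), Finsupp.tsub_apply,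
          Nat.factorization_gcd hNN0 hTi]
        rfl
      have e2 : (Nat.gcd q (D ^ i)).factorization p =
          min (q.factorization p) (i * D.factorization p) := by
        rw [Nat.factorization_gcd hq0 (pow_ne_zero _ hD0), Finsupp.inf_apply,
          Nat.factorization_pow, Finsupp.smul_apply, smul_eq_mul]
      have e3 : (T i).factorization p = c.factorization p +
          (r.factorial.factorization p - i.factorization p) + i * D.factorization p := by
        have h3 : r.factorial / i ≠ 0 :=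
          (Nat.div_pos (Nat.le_of_dvd (Nat.factorial_pos r) hidvd) hi1).ne'
        show (c * (r.factorial / i) * D ^ i).factorization p = _
        rw [Nat.factorization_mul (mul_ne_zero hc0 h3) (pow_ne_zero _ hD0),
          Nat.factorization_mul hc0 h3, Finsupp.add_apply, Finsupp.add_apply,
          Nat.factorization_div hidvd, Finsupp.tsub_apply, Nat.factorization_pow,
          Finsupp.smul_apply, smul_eq_mul]
      have e4 : i.factorization p ≤ r.factorial.factorization p :=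
        (Nat.factorization_prime_le_iff_dvd hi0 (Nat.factorial_ne_zero r)).2 hidvd p hp
      rw [e1, e2, e3]
      by_cases hpq : p ∣ q
      · rw [hfac p hp hpq]
        have h5 : D.factorization p ≤ q.factorization p :=
          (Nat.factorization_prime_le_iff_dvd hD0 hq0).2 hDq p hp
        rcases lt_or_eq_of_le h5 with h6 | h6
        · rw [hpc p hp hpq h6]
          omega
        · have h7 : 1 ≤ D.factorization p :=
            (hp.dvd_iff_one_le_factorization hD0).1 (hrad p hp hpq)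
          have h8 : i.factorization p < i := Nat.factorization_lt p hi0
          have h9 : q.factorization p + i.factorization p ≤ i * D.factorization p := by
            obtain ⟨i', rfl⟩ : ∃ i', i = i' + 1 := ⟨i - 1, by omega⟩
            have h10 : i' * 1 ≤ i' * D.factorization p := Nat.mul_le_mul_left _ h7
            rw [Nat.succ_mul, ← h6]
            omega
          omega
      · rw [hfac' p hp hpq, Nat.factorization_eq_zero_of_not_dvd hpq]
        omega
    have hd1 : q ∣ (NN / Nat.gcd NN (T i)) * Nat.gcd q (D ^ i) := by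
      rw [← Nat.factorization_prime_le_iff_dvd hq0 (mul_ne_zero hQpos.ne' hgD0)]
      intro p hp
      rw [Nat.factorization_mul hQpos.ne' hgD0, Finsupp.add_apply]
      exact (hv p hp).1
    have hd2 : (NN / Nat.gcd NN (T i)) * Nat.gcd q (D ^ i) ∣ i * q := by
      rw [← Nat.factorization_prime_le_iff_dvd (mul_ne_zero hQpos.ne' hgD0)
        (mul_ne_zero hi0 hq0)]
      intro p hp
      rw [Nat.factorization_mul hQpos.ne' hgD0, Finsupp.add_apply,
        Nat.factorization_mul hi0 hq0, Finsupp.add_apply]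
      exact (hv p hp).2
    refine ⟨hQpos, ?_, hprimes, ?_, ?_⟩
    · have h3 : Nat.Coprime (T i / Nat.gcd NN (T i)) (NN / Nat.gcd NN (T i)) :=
        (Nat.coprime_div_gcd_div_gcd hgpos).symm
      have h4 : IsCoprime ((T i / Nat.gcd NN (T i) : ℕ) : ℤ) ((NN / Nat.gcd NN (T i) : ℕ) : ℤ) :=
        Nat.isCoprime_iff_coprime.2 h3
      have h5 : IsUnit ((-1 : ℤ) ^ (i - 1)) := (isUnit_one.neg).pow _
      exact (isCoprime_mul_unit_left_left h5 _ _).2 h4
    · exact Nat.le_of_dvd (Nat.mul_pos hQpos (Nat.pos_of_ne_zero hgD0)) hd1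
    · exact Nat.le_of_dvd (Nat.mul_pos hi1 (by omega)) hd2
  · intro w
    have h3 : χ ((1 + (D : ℤ) * w : ℤ) : ZMod q) = g w := rfl
    rw [h3, hc w]
    congr 3
    rw [hL]
    simp only
    unfold Lam
    have hNR : (NN : ℝ) ≠ 0 := by exact_mod_cast hNN0
    rw [Int.cast_sum, Finset.mul_sum, Finset.sum_div]
    refine Finset.sum_congr rfl fun i hi => ?_
    have hgdT : Nat.gcd NN (T i) ∣ T i := Nat.gcd_dvd_right _ _
    have hgdN : Nat.gcd NN (T i) ∣ NN := Nat.gcd_dvd_left _ _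
    have hgpos : 0 < Nat.gcd NN (T i) := Nat.gcd_pos_of_pos_left _ (Nat.pos_of_ne_zero hNN0)
    have hgR : ((Nat.gcd NN (T i) : ℕ) : ℝ) ≠ 0 := by exact_mod_cast hgpos.ne'
    have h4 : ((T i / Nat.gcd NN (T i) : ℕ) : ℝ) = (T i : ℝ) / (Nat.gcd NN (T i) : ℕ) :=
      Nat.cast_div hgdT hgR
    have h5 : ((NN / Nat.gcd NN (T i) : ℕ) : ℝ) = (NN : ℝ) / (Nat.gcd NN (T i) : ℕ) :=
      Nat.cast_div hgdN hgR
    have h6 : (T i : ℝ) = c * ((r.factorial / i : ℕ) : ℝ) * (D : ℝ) ^ i := by
      rw [hT]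
      push_cast
      ring
    simp only [Int.cast_mul, Int.cast_pow, Int.cast_neg, Int.cast_one, Int.cast_natCast]
    rw [h4, h5, h6]
    field_simp
    rw [mul_pow, mul_assoc]

end Pool.Agent.H190.PP
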